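import Pool.Agent.T9h67.FPD
import Pool.Agent.T9h67.FPT
import Pool.Agent.Results.MP_7bf935_al.MaximalFPP

/-!
# Which fixed-point proportions occur

The `d`-regular rooted tree is the tree of finite words over `Fin d`. `AutT (Fin d)` is its
automorphism group, `LevelTransitive G` says that `G` is transitive on every level and
`IsFPP G c` says that `c` is the fixed-point proportion of `G`. These notions, the set
`fppSet d` of all fixed-point proportions of level-transitive groups and the number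
`beta d = (d^2 - d - 1) / (d^2 - 1)` are those of the file `MaximalFPP`, where the maximum
`α_d` of `fppSet d` is determined for prime powers `d`.

For the binary tree every number of `[0, α_2] = [0, 1/3]` occurs. For prime powers `d ≥ 3`
there is a gap: no number strictly between `(d-2)/(d-1) - eps d` and `(d-2)/(d-1)` occurs, where
`eps d = 1 / ((d-1) (d!)^(d+1))`, although `(d-2)/(d-1)` itself and `α_d > (d-2)/(d-1)` do.
-/

namespace Pool.Agent.Results.MP_7bf935_al.Spectrum

open Filter V1188.FP Pool.Agent.Results.MP_7bf935_al.MaximalFPP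

lemma zmod_two : ∀ x : ZMod 2, x = 0 ∨ x = 1 := by decide

theorem result :
    fppSet 2 = Set.Icc (0 : ℝ) (1 / 3) ∧
    ∀ d : ℕ, 3 ≤ d → IsPrimePow d →
      IsGreatest (fppSet d) (((d : ℝ) ^ 2 - d - 1) / ((d : ℝ) ^ 2 - 1)) ∧
      ((d : ℝ) - 2) / ((d : ℝ) - 1) ∈ fppSet d ∧
      ((d : ℝ) - 2) / ((d : ℝ) - 1) < ((d : ℝ) ^ 2 - d - 1) / ((d : ℝ) ^ 2 - 1) ∧
      0 < ((d : ℝ) - 2) / ((d : ℝ) - 1) -
        1 / (((d : ℝ) - 1) * (d.factorial : ℝ) ^ (d + 1)) ∧
      ∀ α : ℝ, ((d : ℝ) - 2) / ((d : ℝ) - 1) -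
          1 / (((d : ℝ) - 1) * (d.factorial : ℝ) ^ (d + 1)) < α →
        α < ((d : ℝ) - 2) / ((d : ℝ) - 1) → α ∉ fppSet d := by
  have hne : ∀ d : ℕ, 2 ≤ d → Nonempty (Fin d) := fun d hd => ⟨⟨0, by omega⟩⟩
  have hfam : ∀ (d : ℕ) (_ : 2 ≤ d) (G : Subgroup (AutT (Fin d))) (hG : LevelTransitive G),
      fpRatio G = (famOf G hG).P := by
    intro d hd G hG
    have := hne d hd
    funext n; exact ratio_eq G (famOf G hG) n rfl
  have hF' : ∀ (d : ℕ) (_ : 2 ≤ d) (F : Fam (Fin d)) (c : ℝ), Tendsto F.P atTop (nhds c) →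
      c ∈ fppSet d := by
    intro d hd F c hc
    have := hne d hd
    refine ⟨groupOf F, groupOf_trans F, ?_⟩
    have h1 : fpRatio (groupOf F) = F.P := by
      funext n; exact ratio_eq (groupOf F) F n (map_groupOf F n)
    unfold IsFPP
    rw [h1]
    exact hc
  constructor
  · obtain ⟨a, ha, hpp, -⟩ := MaximalFPP.result 2 le_rfl
    have ha2 : a = 1 / 3 := by
      rw [hpp Nat.prime_two.isPrimePow]
      unfold beta
      norm_num
    rw [ha2] at ha
    apply Set.eq_of_subset_of_subset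
    · rintro c ⟨G, hG, hc⟩
      refine ⟨?_, ha.2 ⟨G, hG, hc⟩⟩
      have := hne 2 le_rfl
      unfold IsFPP at hc
      rw [hfam 2 le_rfl G hG] at hc
      exact ge_of_tendsto' hc (P_nonneg _)
    · rintro c ⟨h0, h1⟩
      rcases lt_or_eq_of_le h1 with h | h
      · have : Fact (Nat.Prime 2) := ⟨Nat.prime_two⟩
        have := hne 2 le_rfl
        let e : Fin 2 ≃ ZMod 2 := Equiv.refl _
        obtain ⟨r, hr⟩ := T9h67.FP.all_values e zmod_two c h0 h
        exact hF' 2 le_rfl _ c hr
      · rw [h]; exact ha.1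
  · intro d hd3 hd
    have := hne d (by omega)
    have hcard : d = Fintype.card (Fin d) := by simp
    have hdR : (3 : ℝ) ≤ d := by exact_mod_cast hd3
    obtain ⟨a, ha, hpp, -⟩ := MaximalFPP.result d (by omega)
    have ha2 : a = beta d := hpp hd
    rw [ha2] at ha
    refine ⟨ha, ?_, ?_, ?_, ?_⟩
    · have hpp' : IsPrimePow (Fintype.card (Fin d)) := by rwa [Fintype.card_fin]
      obtain ⟨fld⟩ := Fintype.nonempty_field_iff.mpr hpp'
      exact hF' d (by omega) _ _ (con_lim (Equiv.refl (Fin d)) d hcard hd3)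
    · rw [div_lt_div_iff₀ (by linarith) (by nlinarith)]
      nlinarith
    · have h1 : (1 : ℝ) ≤ (d.factorial : ℝ) ^ (d + 1) := by
        apply one_le_pow₀
        exact_mod_cast Nat.succ_le_of_lt (Nat.factorial_pos d)
      have h2 : (2 : ℝ) ≤ (d.factorial : ℝ) ^ (d + 1) := by
        have h3 : (2 : ℝ) ≤ (d.factorial : ℝ) := by
          have : (2 : ℕ) ≤ d.factorial := (by omega : 2 ≤ d).trans (Nat.self_le_factorial d)
          exact_mod_cast this
        calc (2 : ℝ) ≤ (d.factorial : ℝ) ^ 1 := by rw [pow_one]; exact h3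
          _ ≤ (d.factorial : ℝ) ^ (d + 1) := pow_le_pow_right₀ (by linarith) (by omega)
      rw [sub_pos, div_lt_div_iff₀ (mul_pos (by linarith) (by linarith)) (by linarith)]
      nlinarith [mul_pos (show (0 : ℝ) < (d : ℝ) - 1 by linarith)
        (show (0 : ℝ) < (d.factorial : ℝ) ^ (d + 1) - 1 by linarith)]
    · rintro α h1 h2 ⟨G, hG, hc⟩
      unfold IsFPP at hc
      rw [hfam d (by omega) G hG] at hc
      have h3 := gap (famOf G hG) d hcard hd3 hc
      unfold thr eps at h3
      rcases h3 with h3 | h3 <;> linarith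

end Pool.Agent.Results.MP_7bf935_al.Spectrum
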